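import Pool.Agent.Lib.MP_e3689b_an.T2

set_option autoImplicit false

/-!
# A degree bound of order `N^(n/(n-1))` for rational sphere maps `ℂⁿ → ℂᴺ`

With `m = ⌊(N - 1) / (n - 1)⌋`, the degree `d` of a rational sphere map `ℂⁿ → ℂᴺ` satisfies
`(n (d - m))^(n-1) ≤ (n-1)! m^n`, that is `d ≤ m + ((n-1)!)^(1/(n-1)) / n * m^(n/(n-1))`.
-/

namespace Pool.Agent.Results.MP_e3689b_an.DegreeGrowth

open MvPolynomial

/-- Let `n ≥ 2` and let `p / q : ℂⁿ → ℂᴺ` be a reduced rational map of degree `d` with `q ≠ 0` on the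
closed unit ball, mapping the unit sphere into the unit sphere. With `m = ⌊(N - 1) / (n - 1)⌋`
we have `(n (d - m))^(n-1) ≤ (n-1)! m^n` (`d - m` is truncated subtraction). -/
theorem result (n N : ℕ) (hn : 2 ≤ n)
    (p : Fin N → MvPolynomial (Fin n) ℂ) (q : MvPolynomial (Fin n) ℂ)
    (hred : ∀ r : MvPolynomial (Fin n) ℂ, r ∣ q → (∀ j, r ∣ p j) → IsUnit r)
    (hq : ∀ z : Fin n → ℂ, ∑ i, ‖z i‖ ^ 2 ≤ 1 → MvPolynomial.eval z q ≠ 0)
    (hs : ∀ z : Fin n → ℂ, ∑ i, ‖z i‖ ^ 2 = 1 →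
      ∑ j, ‖MvPolynomial.eval z (p j) / MvPolynomial.eval z q‖ ^ 2 = 1) :
    (n * (max (Finset.univ.sup (fun j => (p j).totalDegree)) q.totalDegree - (N - 1) / (n - 1)))
        ^ (n - 1) ≤
      Nat.factorial (n - 1) * ((N - 1) / (n - 1)) ^ n := by
  obtain ⟨m, rfl⟩ : ∃ m, n = m + 1 := ⟨n - 1, by omega⟩
  have hm : 0 < m := by omega
  exact (Pool.Agent.DAng.thmB hm p q hred hq hs rfl).2

end Pool.Agent.Results.MP_e3689b_an.DegreeGrowth
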