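import Pool.Agent.Lib.MP_e3689b_an.T2
import Pool.Agent.Lib.MP_e3689b_an.W13

set_option autoImplicit false

/-!
# D'Angelo's degree conjecture for rational sphere maps `ℂⁿ → ℂᴺ` in an exponential range

Question Q2 asks whether every rational sphere map `f = p / q : ℂⁿ → ℂᴺ`, `n ≥ 3`, of degree `d`
satisfies `d ≤ (N - 1) / (n - 1)`. The theorem proves this for all `N ≤ 2 ^ n` if `n ≥ 5`, and for all
`N ≤ n (n - 1)` if `n ≥ 2`.
-/

namespace Pool.Agent.Results.MP_e3689b_an.ExponentialRange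

open MvPolynomial

/-- Let `n ≥ 5` and `N ≤ 2 ^ n`, or `n ≥ 2` and `N ≤ n (n - 1)`. Let `p / q : ℂⁿ → ℂᴺ` be a reduced
rational map with `q ≠ 0` on the closed unit ball, mapping the unit sphere into the unit sphere. Then its
degree `d = max (deg p) (deg q)` satisfies `d ≤ (N - 1) / (n - 1)`. -/
theorem result (n N : ℕ) (hN : (2 ≤ n ∧ N ≤ n * (n - 1)) ∨ (5 ≤ n ∧ N ≤ 2 ^ n))
    (p : Fin N → MvPolynomial (Fin n) ℂ) (q : MvPolynomial (Fin n) ℂ)
    (hred : ∀ r : MvPolynomial (Fin n) ℂ, r ∣ q → (∀ j, r ∣ p j) → IsUnit r)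
    (hq : ∀ z : Fin n → ℂ, ∑ i, ‖z i‖ ^ 2 ≤ 1 → MvPolynomial.eval z q ≠ 0)
    (hs : ∀ z : Fin n → ℂ, ∑ i, ‖z i‖ ^ 2 = 1 →
      ∑ j, ‖MvPolynomial.eval z (p j) / MvPolynomial.eval z q‖ ^ 2 = 1) :
    (((max (Finset.univ.sup (fun j => (p j).totalDegree)) q.totalDegree : ℕ) : ℝ)
      ≤ ((N : ℝ) - 1) / ((n : ℝ) - 1)) := by
  obtain ⟨m, rfl⟩ : ∃ m, n = m + 1 := ⟨n - 1, by omega⟩
  have hm : 0 < m := by omega
  have h : m * (max (Finset.univ.sup (fun j => (p j).totalDegree)) q.totalDegree) + 1 ≤ N := by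
    rcases hN with ⟨_, hN⟩ | ⟨h5, hN⟩
    · have h1 := Pool.Agent.DAng.thmA p q hred hq hs rfl hN
      rw [mul_comm]
      exact h1
    · exact Pool.Agent.DAng.thmT (by omega) hN p q hred hq hs rfl
  have hm' : (0 : ℝ) < m := by exact_mod_cast hm
  have h2 : (m : ℝ) * (((max (Finset.univ.sup (fun j => (p j).totalDegree)) q.totalDegree : ℕ) : ℝ)) + 1
      ≤ N := by exact_mod_cast h
  have h3 : (((m + 1 : ℕ) : ℝ) - 1) = m := by push_cast; ring
  rw [h3, le_div_iff₀ hm', mul_comm]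
  linarith

end Pool.Agent.Results.MP_e3689b_an.ExponentialRange
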