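import Pool.Agent.Lib.MP_e3689b_an.NS5

set_option autoImplicit false

/-!
# The degree of a rational sphere map and the negative squares of the quotient

Let `f = p / q : ℂⁿ → ℂᴺ` be a rational sphere map. Then `|q|² - |p|²` is divisible by `1 - |z|²`, and
the quotient is a difference `|g|² - |h|²` of squared norms of polynomial maps. If `h` has `ν` components
then `d ≤ (N - 1) / (n - 1) + ν`. In particular the bound of Q2 holds (also for `n = 2`) if the quotient
is a squared norm, and for `n = 2` the bound `d ≤ 2 N - 3` of Q1 holds if `ν ≤ N - 2`.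
-/

namespace Pool.Agent.Results.MP_e3689b_an.NegativeSquares

open MvPolynomial

/-- Let `n ≥ 2` and let `p / q : ℂⁿ → ℂᴺ` be a reduced rational map with `q ≠ 0` on the closed unit ball,
and suppose that `|q|² - |p|² = (1 - |z|²) (∑ |g_j|² - ∑ |h_j|²)` on `ℂⁿ` with polynomials `g_1, …, g_π`
and `h_1, …, h_ν` (so `p / q` maps the unit sphere into the unit sphere). Then its degree
`d = max (deg p) (deg q)` satisfies `d ≤ (N - 1) / (n - 1) + ν`. -/
theorem result (n N π ν : ℕ) (hn : 2 ≤ n)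
    (p : Fin N → MvPolynomial (Fin n) ℂ) (q : MvPolynomial (Fin n) ℂ)
    (hred : ∀ r : MvPolynomial (Fin n) ℂ, r ∣ q → (∀ j, r ∣ p j) → IsUnit r)
    (hq : ∀ z : Fin n → ℂ, ∑ i, ‖z i‖ ^ 2 ≤ 1 → MvPolynomial.eval z q ≠ 0)
    (g : Fin π → MvPolynomial (Fin n) ℂ) (h : Fin ν → MvPolynomial (Fin n) ℂ)
    (hid : ∀ z : Fin n → ℂ,
      ‖MvPolynomial.eval z q‖ ^ 2 - ∑ j, ‖MvPolynomial.eval z (p j)‖ ^ 2 =
        (1 - ∑ i, ‖z i‖ ^ 2) *
          (∑ j, ‖MvPolynomial.eval z (g j)‖ ^ 2 - ∑ j, ‖MvPolynomial.eval z (h j)‖ ^ 2)) :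
    (((max (Finset.univ.sup (fun j => (p j).totalDegree)) q.totalDegree : ℕ) : ℝ)
      ≤ ((N : ℝ) - 1) / ((n : ℝ) - 1) + ν) := by
  obtain ⟨m, rfl⟩ : ∃ m, n = m + 1 := ⟨n - 1, by omega⟩
  have hm : 0 < m := by omega
  have h1 := Pool.Agent.DAng.NS5 hm p q hred hq g h hid rfl
  have hm' : (0 : ℝ) < m := by exact_mod_cast hm
  have h2 : (m : ℝ) * (((max (Finset.univ.sup (fun j => (p j).totalDegree)) q.totalDegree : ℕ) : ℝ))
      + 1 ≤ N + m * ν := by exact_mod_cast h1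
  have h3 : (((m + 1 : ℕ) : ℝ) - 1) = m := by push_cast; ring
  rw [h3, ← sub_le_iff_le_add, le_div_iff₀ hm']
  linarith

end Pool.Agent.Results.MP_e3689b_an.NegativeSquares
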